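import Mathlib
import Pool.Agent.Q164.KZ.Main
import Pool.Agent.Q164.KZ.Root

/-!
# MP_0b1547_co, Q2: a Koszul Chow ring whose Hilbert series has a non-real zero
-/

set_option autoImplicit false

namespace Pool.Agent.Results.MP_0b1547_co.NonRealZero

open Pool.Agent.Q164.KZ

/-- There are a loopless matroid `M` and a building set `G` of its lattice of flats such that the
Chow ring of `(M, G)` is Koszul and its Hilbert series has a non-real zero. -/
theorem result : ∃ (M : Matroid (Fin 7)) (G : Set (Set (Fin 7))),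
    M.Loopless ∧ IsBuildingSet M G ∧ IsKoszulChow M G ∧
    ∃ P : Polynomial ℤ, (∀ i, (Module.finrank ℚ (chowPart M G i) : ℤ) = P.coeff i) ∧
      ∃ z : ℂ, z.im ≠ 0 ∧ Polynomial.aeval z P = 0 := by
  refine ⟨fr (Fin 7), Tab.GG, fr_loopless, Tab.building, Tab.koszul,
    1 + 11 * Polynomial.X + 39 * Polynomial.X ^ 2 + 59 * Polynomial.X ^ 3 +
      39 * Polynomial.X ^ 4 + 11 * Polynomial.X ^ 5 + Polynomial.X ^ 6, ?_, ?_⟩
  · intro i
    rw [Tab.hilbert]
    have h : ∀ (c : ℤ) (k : ℕ), Polynomial.coeff (Polynomial.C c * Polynomial.X ^ k) i =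
        if i = k then c else 0 := fun c k => Polynomial.coeff_C_mul_X_pow c k i
    have e : (1 + 11 * Polynomial.X + 39 * Polynomial.X ^ 2 + 59 * Polynomial.X ^ 3 +
      39 * Polynomial.X ^ 4 + 11 * Polynomial.X ^ 5 + Polynomial.X ^ 6 : Polynomial ℤ) =
      Polynomial.C 1 * Polynomial.X ^ 0 + Polynomial.C 11 * Polynomial.X ^ 1 +
      Polynomial.C 39 * Polynomial.X ^ 2 + Polynomial.C 59 * Polynomial.X ^ 3 +
      Polynomial.C 39 * Polynomial.X ^ 4 + Polynomial.C 11 * Polynomial.X ^ 5 +
      Polynomial.C 1 * Polynomial.X ^ 6 := by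
      simp
    rw [e]
    simp only [Polynomial.coeff_add, h]
    match i with
    | 0 => simp
    | 1 => simp
    | 2 => simp
    | 3 => simp
    | 4 => simp
    | 5 => simp
    | 6 => simp
    | n + 7 => simp
  · obtain ⟨z, hz, h⟩ := exists_root
    refine ⟨z, hz, ?_⟩
    rw [← h]
    simp only [map_add, map_mul, map_pow, map_one, Polynomial.aeval_X, map_ofNat]

end Pool.Agent.Results.MP_0b1547_co.NonRealZero
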